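import Pool.Agent.Q85.VL.Defs

/-! Project VL (helper85): common lemmas on the fluxes (helper16). -/

set_option autoImplicit false

open MeasureTheory Set Metric
open scoped ContDiff
open H459R3.NS Pool.Agent.W268.NS Pool.Agent.Q67.VD

namespace Pool.Agent.Q16.VL

open Pool.Agent.Q85.CC Pool.Agent.Q85.CL Pool.Agent.Q85.VL
open Pool.Agent.Q151.CC hiding pr

lemma abs_le_len (n : V) (i : Fin 3) : |n i| ≤ len n := by
  unfold len
  apply Real.abs_le_sqrt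
  exact coord_sq n i

lemma lenn (n : V) : 0 ≤ len n := Real.sqrt_nonneg _

lemma lensq (n : V) : len n ^ 2 = n 0 ^ 2 + n 1 ^ 2 + n 2 ^ 2 := by
  unfold len
  rw [Real.sq_sqrt (dot_nn n), dot3]
  ring

lemma sum_abs_le (n : V) : |n 0| + |n 1| + |n 2| ≤ 2 * len n := by
  have h1 := lensq n
  have h2 := lenn n
  have h3 : (|n 0| + |n 1| + |n 2|) ^ 2 ≤ (2 * len n) ^ 2 := by
    rw [mul_pow, h1, ← sq_abs (n 0), ← sq_abs (n 1), ← sq_abs (n 2)]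
    nlinarith [sq_nonneg (|n 0| - |n 1|), sq_nonneg (|n 0| - |n 2|), sq_nonneg (|n 1| - |n 2|), sq_nonneg (|n 0|),
      sq_nonneg (|n 1|), sq_nonneg (|n 2|)]
  exact abs_le_of_sq_le_sq' h3 (by linarith) |>.2

section basic

variable (hB : StmBas)
include hB

lemma stp_d (s : ℝ) : HasDerivAt stp (stp' s) s := hB.1 s
lemma stp_c1 : ContDiff ℝ 1 stp := hB.2.1
lemma stp'_cont : Continuous stp' := hB.2.2.1
lemma stp_mono : Monotone stp := hB.2.2.2.1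
lemma stp_b (s : ℝ) : 0 ≤ stp s ∧ stp s ≤ 1 ∧ 0 ≤ stp' s ∧ stp' s ≤ 2 := hB.2.2.2.2.1 s
lemma stp_0 {s : ℝ} (h : s ≤ 0) : stp s = 0 := hB.2.2.2.2.2.1 s h
lemma stp_1 {s : ℝ} (h : 1 ≤ s) : stp s = 1 := hB.2.2.2.2.2.2.1 s h
lemma stp'_ne {s : ℝ} (h : stp' s ≠ 0) : 0 < s ∧ s < 1 := hB.2.2.2.2.2.2.2.1 s h
lemma stp_ne {s : ℝ} (h : stp s ≠ 0) : 0 < s := hB.2.2.2.2.2.2.2.2.1 s h
lemma stp_ne1 {s : ℝ} (h : stp s ≠ 1) : s < 1 := hB.2.2.2.2.2.2.2.2.2.1 s h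

lemma stp'_0 {s : ℝ} (h : s ≤ 0) : stp' s = 0 := by
  by_contra hc
  exact absurd (stp'_ne hB hc).1 (not_lt.2 h)

lemma stp'_1 {s : ℝ} (h : 1 ≤ s) : stp' s = 0 := by
  by_contra hc
  exact absurd (stp'_ne hB hc).2 (not_lt.2 h)

lemma stp_cont : Continuous stp := (stp_c1 hB).continuous

variable {x : V} {ρ : ℝ} (hρ : 0 < ρ)
include hρ

lemma ds_sm : ContDiff ℝ ∞ (ds x ρ) := (hB.2.2.2.2.2.2.2.2.2.2 x ρ hρ).1
lemma ds_c1 : ContDiff ℝ 1 (ds x ρ) := (ds_sm hB hρ).of_le (by exact_mod_cast le_top)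
lemma len_le_ds (y : V) : len (y - x) ≤ ds x ρ y := (hB.2.2.2.2.2.2.2.2.2.2 x ρ hρ).2.1 y
lemma rho_le_ds (y : V) : ρ ≤ ds x ρ y := (hB.2.2.2.2.2.2.2.2.2.2 x ρ hρ).2.2.1 y
lemma ds_le (y : V) : ds x ρ y ≤ len (y - x) + ρ := (hB.2.2.2.2.2.2.2.2.2.2 x ρ hρ).2.2.2.1 y
lemma nm_le_ds (y : V) : ‖y - x‖ ≤ ds x ρ y := (hB.2.2.2.2.2.2.2.2.2.2 x ρ hρ).2.2.2.2.1 y
lemma ds_le_two {y : V} (h : ‖y - x‖ ≤ ρ) : ds x ρ y ≤ 2 * ρ := (hB.2.2.2.2.2.2.2.2.2.2 x ρ hρ).2.2.2.2.2.1 y h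
lemma ds_lip (y z : V) : |ds x ρ y - ds x ρ z| ≤ len (y - z) := (hB.2.2.2.2.2.2.2.2.2.2 x ρ hρ).2.2.2.2.2.2.1 y z
lemma ds_fd (y n : V) : |fderiv ℝ (ds x ρ) y n| ≤ len n := (hB.2.2.2.2.2.2.2.2.2.2 x ρ hρ).2.2.2.2.2.2.2 y n
lemma ds_pos (y : V) : 0 < ds x ρ y := hρ.trans_le (rho_le_ds hB hρ y)

variable {κ : ℝ} {g : V → ℝ} (hg : ContDiff ℝ 1 g)
include hg

lemma uu_c1 : ContDiff ℝ 1 (uu κ ρ g x) := by
  have h : uu κ ρ g x = fun y => g y - g x - κ / 2 * ds x ρ y := rfl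
  rw [h]
  exact (hg.sub contDiff_const).sub (contDiff_const.mul (ds_c1 hB hρ))

lemma ww_c1 : ContDiff ℝ 1 (ww κ ρ g x) := by
  have h : ww κ ρ g x = fun y => g y - g x - 3 * κ / 4 * ds x ρ y := rfl
  rw [h]
  exact (hg.sub contDiff_const).sub (contDiff_const.mul (ds_c1 hB hρ))

lemma uu_fd (y n : V) : fderiv ℝ (uu κ ρ g x) y n = fderiv ℝ g y n - κ / 2 * fderiv ℝ (ds x ρ) y n := by
  have h1 := (hg.differentiable one_ne_zero y).hasFDerivAt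
  have h2 := ((ds_c1 hB hρ (x := x)).differentiable one_ne_zero y).hasFDerivAt
  have h3 : HasFDerivAt (uu κ ρ g x) (fderiv ℝ g y - (κ / 2) • fderiv ℝ (ds x ρ) y) y :=
    (h1.sub_const (g x)).sub (h2.const_mul (κ / 2))
  rw [h3.fderiv]
  simp

lemma ww_fd (y n : V) : fderiv ℝ (ww κ ρ g x) y n = fderiv ℝ g y n - 3 * κ / 4 * fderiv ℝ (ds x ρ) y n := by
  have h1 := (hg.differentiable one_ne_zero y).hasFDerivAt
  have h2 := ((ds_c1 hB hρ (x := x)).differentiable one_ne_zero y).hasFDerivAt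
  have h3 : HasFDerivAt (ww κ ρ g x) (fderiv ℝ g y - (3 * κ / 4) • fderiv ℝ (ds x ρ) y) y :=
    (h1.sub_const (g x)).sub (h2.const_mul (3 * κ / 4))
  rw [h3.fderiv]
  simp

lemma TT_c1 (r : ℝ) : ContDiff ℝ 1 (TT κ ρ g x r) := by
  have h : TT κ ρ g x r = fun y => stp ((ww κ ρ g x y + κ * r / 8) / (κ * r / 16)) := rfl
  rw [h]
  exact (stp_c1 hB).comp (((ww_c1 hB hρ hg).add contDiff_const).div_const _)

lemma PS_c1 (r : ℝ) : ContDiff ℝ 1 (PS κ ρ g x r) := by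
  have h : PS κ ρ g x r = fun y => stp ((uu κ ρ g x y - κ * r / 64) / (κ * r / 64)) := rfl
  rw [h]
  exact (stp_c1 hB).comp (((uu_c1 hB hρ hg).sub contDiff_const).div_const _)

lemma TT_fd (r : ℝ) (y n : V) : fderiv ℝ (TT κ ρ g x r) y n =
    stp' ((ww κ ρ g x y + κ * r / 8) / (κ * r / 16)) / (κ * r / 16) * fderiv ℝ (ww κ ρ g x) y n := by
  have h1 := ((ww_c1 hB hρ hg (κ := κ) (x := x)).differentiable one_ne_zero y).hasFDerivAt
  have h2 := (h1.add_const (κ * r / 8)).mul_const' (κ * r / 16)⁻¹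
  have h3 := (stp_d hB ((ww κ ρ g x y + κ * r / 8) * (κ * r / 16)⁻¹)).comp_hasFDerivAt y h2
  have h4 : HasFDerivAt (TT κ ρ g x r) _ y := h3
  rw [h4.fderiv]
  simp only [div_eq_mul_inv]
  simp
  ring

lemma PS_fd (r : ℝ) (y n : V) : fderiv ℝ (PS κ ρ g x r) y n =
    stp' ((uu κ ρ g x y - κ * r / 64) / (κ * r / 64)) / (κ * r / 64) * fderiv ℝ (uu κ ρ g x) y n := by
  have h1 := ((uu_c1 hB hρ hg (κ := κ) (x := x)).differentiable one_ne_zero y).hasFDerivAt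
  have h2 := (h1.sub_const (κ * r / 64)).mul_const' (κ * r / 64)⁻¹
  have h3 := (stp_d hB ((uu κ ρ g x y - κ * r / 64) * (κ * r / 64)⁻¹)).comp_hasFDerivAt y h2
  have h4 : HasFDerivAt (PS κ ρ g x r) _ y := h3
  rw [h4.fderiv]
  simp only [div_eq_mul_inv]
  simp
  ring

end basic

section flux

variable (hB : StmBas) {κ ρ R : ℝ} {x : V} {f m : V → ℝ} {W : V → V} {g : V → ℝ}

lemma f_nn (hW : LF κ R x f m W g) {y : V} (hy : y ∈ closedBall x R) : 0 ≤ f y := (lenn _).trans (hW.up y hy)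

include hB in
lemma uu_lo (hκ : 0 < κ) (hρ : 0 < ρ) (hW : LF κ R x f m W g) {y : V} (hy : y ∈ closedBall x R) :
    κ / 2 * f y ≤ fderiv ℝ (uu κ ρ g x) y (W y) + m y := by
  rw [uu_fd hB hρ hW.gs]
  have h1 := hW.lo y hy
  have h2 := (abs_le.1 (ds_fd hB hρ (x := x) y (W y))).2
  have h3 := hW.up y hy
  nlinarith

include hB in
lemma ww_lo (hκ : 0 < κ) (hρ : 0 < ρ) (hW : LF κ R x f m W g) {y : V} (hy : y ∈ closedBall x R) :
    κ / 4 * f y ≤ fderiv ℝ (ww κ ρ g x) y (W y) + m y := by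
  rw [ww_fd hB hρ hW.gs]
  have h1 := hW.lo y hy
  have h2 := (abs_le.1 (ds_fd hB hρ (x := x) y (W y))).2
  have h3 := hW.up y hy
  nlinarith

lemma uu_ww (y : V) : uu κ ρ g x y - ww κ ρ g x y = κ / 4 * ds x ρ y := by
  unfold uu ww
  ring

include hB in
/-- where the density of the flux does not vanish -/
lemma pr_ne (hκ : 0 < κ) {r : ℝ} (hr : 0 < r) {y : V} (h : pr κ ρ g x W m r y ≠ 0) :
    ds x ρ y < 5 * r / 8 ∧ κ * r / 64 < uu κ ρ g x y ∧ uu κ ρ g x y < κ * r / 32 ∧ -(κ * r / 8) < ww κ ρ g x y := by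
  unfold pr at h
  have h1 := left_ne_zero_of_mul h
  have h2 := left_ne_zero_of_mul (right_ne_zero_of_mul h)
  have hκr : 0 < κ * r := mul_pos hκ hr
  have h3 := stp'_ne hB (div_ne_zero_iff.1 h2).1
  have h4 := stp_ne hB h1
  rw [lt_div_iff₀ (by positivity), div_lt_iff₀ (by positivity)] at h3
  rw [lt_div_iff₀ (by positivity)] at h4
  have h5 := uu_ww (κ := κ) (ρ := ρ) (g := g) (x := x) y
  refine ⟨?_, by linarith [h3.1], by linarith [h3.2], by linarith⟩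
  have h6 : κ * ds x ρ y < κ * (5 * r / 8) := by nlinarith [h3.2]
  exact lt_of_mul_lt_mul_left h6 hκ.le

include hB in
lemma pr_nn (hκ : 0 < κ) (hρ : 0 < ρ) (hW : LF κ R x f m W g) {r : ℝ} (hr : 0 < r) {y : V} (hy : y ∈ closedBall x R) :
    0 ≤ pr κ ρ g x W m r y := by
  unfold pr TT
  have h1 := uu_lo hB hκ hρ hW hy
  have h2 := f_nn hW hy
  have h3 := (stp_b hB ((ww κ ρ g x y + κ * r / 8) / (κ * r / 16))).1
  have h4 := (stp_b hB ((uu κ ρ g x y - κ * r / 64) / (κ * r / 64))).2.2.1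
  have h5 : 0 ≤ fderiv ℝ (uu κ ρ g x) y (W y) + m y := le_trans (by positivity) h1
  positivity

include hB in
lemma pr_cont (hρ : 0 < ρ) (hW : LF κ R x f m W g) (r : ℝ) : Continuous (pr κ ρ g x W m r) := by
  have h1 := (TT_c1 hB hρ hW.gs (κ := κ) (x := x) r).continuous
  have h2 := uu_c1 hB hρ hW.gs (κ := κ) (x := x)
  have h3 := (h2.continuous_fderiv one_ne_zero).clm_apply hW.wd.cont
  have h4 := stp'_cont hB
  have h5 := h2.continuous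
  have h6 := hW.mc
  unfold pr
  refine h1.mul (Continuous.mul ?_ (h3.add h6))
  exact (h4.comp ((h5.sub continuous_const).div_const _)).div_const _

end flux

end Pool.Agent.Q16.VL
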