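import Pool.Agent.Q16.VL.Basic

/-! Project VL (helper85): the cut-off function of a cube (helper16). -/

set_option autoImplicit false

open MeasureTheory Set Metric
open scoped ContDiff
open H459R3.NS Pool.Agent.W268.NS Pool.Agent.Q67.VD

namespace Pool.Agent.Q16.VL

open Pool.Agent.Q85.CC Pool.Agent.Q85.CL Pool.Agent.Q85.VL
open Pool.Agent.Q151.CC hiding pr

/-- the profile: `1` for `|a| ≤ c`, `0` for `|a| ≥ c + 2 w` -/
noncomputable def ph (c w a : ℝ) : ℝ := 1 - stp ((a - c) / (2 * w)) - stp ((-a - c) / (2 * w))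

/-- its derivative -/
noncomputable def ph' (c w a : ℝ) : ℝ := stp' ((-a - c) / (2 * w)) / (2 * w) - stp' ((a - c) / (2 * w)) / (2 * w)

section prof

variable (hB : StmBas) {c w : ℝ}
include hB

lemma ph_d (a : ℝ) : HasDerivAt (ph c w) (ph' c w a) a := by
  have h1 : HasDerivAt (fun a : ℝ => (a - c) / (2 * w)) (1 / (2 * w)) a := ((hasDerivAt_id a).sub_const c).div_const _
  have h2 : HasDerivAt (fun a : ℝ => (-a - c) / (2 * w)) (-1 / (2 * w)) a := ((hasDerivAt_neg a).sub_const c).div_const _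
  have h3 := (stp_d hB ((a - c) / (2 * w))).comp a h1
  have h4 := (stp_d hB ((-a - c) / (2 * w))).comp a h2
  have h5 := ((hasDerivAt_const a (1 : ℝ)).sub h3).sub h4
  have h6 : HasDerivAt (ph c w) _ a := h5
  refine h6.congr_deriv ?_
  unfold ph'
  ring

lemma ph_c1 : ContDiff ℝ 1 (ph c w) := by
  have h : ph c w = fun a => 1 - stp ((a - c) / (2 * w)) - stp ((-a - c) / (2 * w)) := rfl
  rw [h]
  have h1 := stp_c1 hB
  refine (contDiff_const.sub (h1.comp ?_)).sub (h1.comp ?_) <;> fun_prop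

lemma ph_in (hw : 0 < w) {a : ℝ} (ha : |a| ≤ c) : ph c w a = 1 ∧ ph' c w a = 0 := by
  obtain ⟨h1, h2⟩ := abs_le.1 ha
  have e1 : (a - c) / (2 * w) ≤ 0 := div_nonpos_of_nonpos_of_nonneg (by linarith) (by positivity)
  have e2 : (-a - c) / (2 * w) ≤ 0 := div_nonpos_of_nonpos_of_nonneg (by linarith) (by positivity)
  unfold ph ph'
  rw [stp_0 hB e1, stp_0 hB e2, stp'_0 hB e1, stp'_0 hB e2]
  simp

lemma ph_out (hw : 0 < w) (hc : 0 ≤ c) {a : ℝ} (ha : c + 2 * w ≤ |a|) : ph c w a = 0 ∧ ph' c w a = 0 := by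
  rcases abs_choice a with h | h
  · rw [h] at ha
    have e1 : 1 ≤ (a - c) / (2 * w) := by
      rw [le_div_iff₀ (by positivity)]
      linarith
    have e2 : (-a - c) / (2 * w) ≤ 0 := div_nonpos_of_nonpos_of_nonneg (by linarith) (by positivity)
    unfold ph ph'
    rw [stp_1 hB e1, stp_0 hB e2, stp'_1 hB e1, stp'_0 hB e2]
    simp
  · rw [h] at ha
    have e1 : 1 ≤ (-a - c) / (2 * w) := by
      rw [le_div_iff₀ (by positivity)]
      linarith
    have e2 : (a - c) / (2 * w) ≤ 0 := div_nonpos_of_nonpos_of_nonneg (by linarith) (by positivity)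
    unfold ph ph'
    rw [stp_1 hB e1, stp_0 hB e2, stp'_1 hB e1, stp'_0 hB e2]
    simp

lemma ph_b (hw : 0 < w) (hc : 0 ≤ c) (a : ℝ) : 0 ≤ ph c w a ∧ ph c w a ≤ 1 ∧ |ph' c w a| ≤ 1 / w := by
  obtain ⟨a1, a2, a3, a4⟩ := stp_b hB ((a - c) / (2 * w))
  obtain ⟨b1, b2, b3, b4⟩ := stp_b hB ((-a - c) / (2 * w))
  refine ⟨?_, by unfold ph; linarith, ?_⟩
  · rcases le_total a 0 with h | h
    · have e2 : (a - c) / (2 * w) ≤ 0 := div_nonpos_of_nonpos_of_nonneg (by linarith) (by positivity)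
      unfold ph
      rw [stp_0 hB e2]
      linarith
    · have e2 : (-a - c) / (2 * w) ≤ 0 := div_nonpos_of_nonpos_of_nonneg (by linarith) (by positivity)
      unfold ph
      rw [stp_0 hB e2]
      linarith
  · unfold ph'
    rw [← sub_div, abs_div, abs_of_pos (by positivity : 0 < 2 * w), div_le_div_iff₀ (by positivity) hw]
    have : |stp' ((-a - c) / (2 * w)) - stp' ((a - c) / (2 * w))| ≤ 2 := by
      rw [abs_le]
      constructor <;> linarith
    nlinarith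

end prof

/-- the cut-off function -/
noncomputable def chi (x : V) (c w : ℝ) (y : V) : ℝ := ph c w (y 0 - x 0) * ph c w (y 1 - x 1) * ph c w (y 2 - x 2)

section chi

variable (hB : StmBas) {x : V} {c w : ℝ}
include hB

lemma chi_c1 : ContDiff ℝ 1 (chi x c w) := by
  have h : chi x c w = fun y => ph c w (y 0 - x 0) * ph c w (y 1 - x 1) * ph c w (y 2 - x 2) := rfl
  rw [h]
  have h1 := ph_c1 hB (c := c) (w := w)
  have h2 : ∀ i : Fin 3, ContDiff ℝ 1 (fun y : V => ph c w (y i - x i)) := fun i => h1.comp (by fun_prop)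
  exact ((h2 0).mul (h2 1)).mul (h2 2)

lemma chi_b (hw : 0 < w) (hc : 0 ≤ c) (y : V) : 0 ≤ chi x c w y ∧ chi x c w y ≤ 1 := by
  unfold chi
  obtain ⟨a1, a2, _⟩ := ph_b hB hw hc (y 0 - x 0)
  obtain ⟨b1, b2, _⟩ := ph_b hB hw hc (y 1 - x 1)
  obtain ⟨c1, c2, _⟩ := ph_b hB hw hc (y 2 - x 2)
  exact ⟨by positivity, mul_le_one₀ (mul_le_one₀ a2 b1 b2) c1 c2⟩

lemma chi_fd (y n : V) : fderiv ℝ (chi x c w) y n =
    ph' c w (y 0 - x 0) * n 0 * (ph c w (y 1 - x 1) * ph c w (y 2 - x 2)) +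
    ph' c w (y 1 - x 1) * n 1 * (ph c w (y 0 - x 0) * ph c w (y 2 - x 2)) +
    ph' c w (y 2 - x 2) * n 2 * (ph c w (y 0 - x 0) * ph c w (y 1 - x 1)) := by
  have h1 : ∀ i : Fin 3, HasFDerivAt (fun y : V => ph c w (y i - x i))
      (ph' c w (y i - x i) • (ContinuousLinearMap.proj (R := ℝ) (φ := fun _ : Fin 3 => ℝ) i)) y := by
    intro i
    have h2 : HasFDerivAt (fun y : V => y i - x i) (ContinuousLinearMap.proj (R := ℝ) (φ := fun _ : Fin 3 => ℝ) i) y :=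
      ((ContinuousLinearMap.proj (R := ℝ) (φ := fun _ : Fin 3 => ℝ) i).hasFDerivAt).sub_const (x i)
    exact (ph_d hB (y i - x i)).comp_hasFDerivAt y h2
  have h3 := ((h1 0).mul (h1 1)).mul (h1 2)
  have h4 : HasFDerivAt (chi x c w) _ y := h3
  rw [h4.fderiv]
  simp
  ring

lemma chi_in (hw : 0 < w) (hc : 0 ≤ c) {y : V} (hy : ‖y - x‖ ≤ c) : chi x c w y = 1 ∧ ∀ n, fderiv ℝ (chi x c w) y n = 0 := by
  rw [pi_norm_le_iff_of_nonneg hc] at hy
  simp only [Real.norm_eq_abs, Pi.sub_apply] at hy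
  obtain ⟨a1, a2⟩ := ph_in hB hw (hy 0)
  obtain ⟨b1, b2⟩ := ph_in hB hw (hy 1)
  obtain ⟨c1, c2⟩ := ph_in hB hw (hy 2)
  constructor
  · unfold chi
    rw [a1, b1, c1]
    norm_num
  · intro n
    rw [chi_fd hB, a2, b2, c2]
    ring

lemma chi_out (hw : 0 < w) (hc : 0 ≤ c) {y : V} (hy : c + 2 * w ≤ ‖y - x‖) :
    chi x c w y = 0 ∧ ∀ n, fderiv ℝ (chi x c w) y n = 0 := by
  have h1 : ∃ i, c + 2 * w ≤ |y i - x i| := by
    by_contra hcon
    push Not at hcon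
    have : ‖y - x‖ < c + 2 * w := by
      rw [pi_norm_lt_iff (by positivity)]
      simpa only [Real.norm_eq_abs, Pi.sub_apply] using hcon
    linarith
  obtain ⟨i, hi⟩ := h1
  obtain ⟨a1, a2⟩ := ph_out hB hw hc hi
  constructor
  · unfold chi
    fin_cases i <;> simp_all
  · intro n
    rw [chi_fd hB]
    fin_cases i <;> simp_all

lemma chi_fd_le (hw : 0 < w) (hc : 0 ≤ c) (y n : V) : |fderiv ℝ (chi x c w) y n| ≤ 2 / w * len n := by
  rw [chi_fd hB]
  obtain ⟨a1, a2, a3⟩ := ph_b hB hw hc (y 0 - x 0)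
  obtain ⟨b1, b2, b3⟩ := ph_b hB hw hc (y 1 - x 1)
  obtain ⟨c1, c2, c3⟩ := ph_b hB hw hc (y 2 - x 2)
  have h1 : ∀ p' n' p q : ℝ, |p'| ≤ 1 / w → 0 ≤ p → p ≤ 1 → 0 ≤ q → q ≤ 1 → |p' * n' * (p * q)| ≤ 1 / w * |n'| := by
    intro p' n' p q h1 h2 h3 h4 h5
    rw [abs_mul, abs_mul, abs_of_nonneg (mul_nonneg h2 h4)]
    have h6 : p * q ≤ 1 := mul_le_one₀ h3 h4 h5
    calc |p'| * |n'| * (p * q) ≤ 1 / w * |n'| * 1 := by gcongr
      _ = _ := by ring
  have h2 := sum_abs_le n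
  calc _ ≤ |ph' c w (y 0 - x 0) * n 0 * (ph c w (y 1 - x 1) * ph c w (y 2 - x 2))| +
      |ph' c w (y 1 - x 1) * n 1 * (ph c w (y 0 - x 0) * ph c w (y 2 - x 2))| +
      |ph' c w (y 2 - x 2) * n 2 * (ph c w (y 0 - x 0) * ph c w (y 1 - x 1))| := abs_add_three _ _ _
    _ ≤ 1 / w * |n 0| + 1 / w * |n 1| + 1 / w * |n 2| := by
        gcongr
        · exact h1 _ _ _ _ a3 b1 b2 c1 c2
        · exact h1 _ _ _ _ b3 a1 a2 c1 c2
        · exact h1 _ _ _ _ c3 a1 a2 b1 b2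
    _ = 1 / w * (|n 0| + |n 1| + |n 2|) := by ring
    _ ≤ 1 / w * (2 * len n) := by gcongr
    _ = _ := by ring

lemma chi_ts (hw : 0 < w) (hc : 0 ≤ c) {F : V → ℝ} : tsupport (fun y => chi x c w y * F y) ⊆ closedBall x (c + 2 * w) := by
  refine closure_minimal ?_ isClosed_closedBall
  intro y hy
  rw [mem_closedBall, dist_eq_norm]
  by_contra hcon
  push Not at hcon
  apply hy
  change chi x c w y * F y = 0
  rw [(chi_out hB hw hc hcon.le).1, zero_mul]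

end chi

end Pool.Agent.Q16.VL
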