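import Pool.Agent.Q16.VL.Cut

/-! Project VL (helper85), job VL-5: the flux leaves the cube through the part `u > 0` of its surface (helper16). -/

set_option autoImplicit false

open MeasureTheory Set Metric
open scoped ContDiff
open H459R3.NS Pool.Agent.W268.NS Pool.Agent.Q67.VD

namespace Pool.Agent.Q16.VL

open Pool.Agent.Q85.CC Pool.Agent.Q85.CL Pool.Agent.Q85.VL
open Pool.Agent.Q151.CC hiding pr

theorem fc (hB : StmBas) : StmFC := by
  intro κ ρ R r s w x f m W g hκ hκ1 hρ hW hr hrs hw hws hsR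
  have hκr : 0 < κ * r := mul_pos hκ hr
  obtain ⟨c, hc⟩ : ∃ c, c = s - w := ⟨_, rfl⟩
  have hc0 : 0 ≤ c := by rw [hc]; linarith
  have hsw : c + 2 * w = s + w := by rw [hc]; ring
  have hcTT := TT_c1 hB hρ hW.gs (κ := κ) (x := x) r
  have hcPS := PS_c1 hB hρ hW.gs (κ := κ) (x := x) r
  have hcchi := chi_c1 hB (x := x) (c := c) (w := w)
  obtain ⟨Y, hY⟩ : ∃ Y : V → ℝ, Y = fun y => TT κ ρ g x r y * PS κ ρ g x r y := ⟨_, rfl⟩
  have hYc : ContDiff ℝ 1 Y := by rw [hY]; exact hcTT.mul hcPS
  obtain ⟨F, hF⟩ : ∃ F : V → ℝ, F = fun y => chi x c w y * Y y := ⟨_, rfl⟩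
  have hFc : ContDiff ℝ 1 F := by rw [hF]; exact hcchi.mul hYc
  have hts : tsupport F ⊆ closedBall x R := by
    rw [hF]
    refine (chi_ts hB hw hc0).trans (closedBall_subset_closedBall ?_)
    rw [hsw]
    exact hsR
  have hdiv := hW.wd.div F hFc hts
  have hfd : ∀ y n : V, fderiv ℝ F y n = chi x c w y * fderiv ℝ Y y n + Y y * fderiv ℝ (chi x c w) y n := by
    intro y n
    have h01 : HasFDerivAt (chi x c w) (fderiv ℝ (chi x c w) y) y := (hcchi.differentiable one_ne_zero y).hasFDerivAt
    have h02 : HasFDerivAt Y (fderiv ℝ Y y) y := (hYc.differentiable one_ne_zero y).hasFDerivAt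
    have h2 : HasFDerivAt F (chi x c w y • fderiv ℝ Y y + Y y • fderiv ℝ (chi x c w) y) y := by
      rw [hF]
      exact h01.mul h02
    rw [h2.fderiv]
    simp
  have hYfd : ∀ y n : V, fderiv ℝ Y y n = TT κ ρ g x r y * fderiv ℝ (PS κ ρ g x r) y n +
      PS κ ρ g x r y * fderiv ℝ (TT κ ρ g x r) y n := by
    intro y n
    have h01 : HasFDerivAt (TT κ ρ g x r) (fderiv ℝ (TT κ ρ g x r) y) y := (hcTT.differentiable one_ne_zero y).hasFDerivAt
    have h02 : HasFDerivAt (PS κ ρ g x r) (fderiv ℝ (PS κ ρ g x r) y) y := (hcPS.differentiable one_ne_zero y).hasFDerivAt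
    have h2 : HasFDerivAt Y (TT κ ρ g x r y • fderiv ℝ (PS κ ρ g x r) y + PS κ ρ g x r y • fderiv ℝ (TT κ ρ g x r) y) y := by
      rw [hY]
      exact h01.mul h02
    rw [h2.fderiv]
    simp
  have huc := (uu_c1 hB hρ hW.gs (κ := κ) (x := x)).continuous
  obtain ⟨S, hS⟩ : ∃ S : Set V, S = Shell x s w ∩ {y | 0 < uu κ ρ g x y} := ⟨_, rfl⟩
  have hSm : MeasurableSet S := by
    rw [hS]
    refine MeasurableSet.inter ?_ ?_
    · have : IsClosed (Shell x s w) := isClosed_le (by fun_prop) continuous_const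
      exact this.measurableSet
    · exact (isOpen_lt continuous_const huc).measurableSet
  have hSB : S ⊆ closedBall x R := by
    intro y hy
    rw [hS] at hy
    have h1 := abs_le.1 (show |‖y - x‖ - s| ≤ w from hy.1)
    rw [mem_closedBall, dist_eq_norm]
    linarith [h1.2]
  have hpt : ∀ y ∈ closedBall x R, pr κ ρ g x W m r y ≤
      fderiv ℝ F y (W y) + (2 / w * S.indicator f y + 256 / (κ * r) * (closedBall x (s + w)).indicator m y) := by
    intro y hy
    have hf0 := f_nn hW hy
    have hm0 := hW.m0 y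
    have hSf : 0 ≤ S.indicator f y := by
      by_cases h : y ∈ S
      · rw [Set.indicator_of_mem h]; exact hf0
      · rw [Set.indicator_of_notMem h]
    by_cases hin : y ∈ closedBall x (s + w)
    · rw [Set.indicator_of_mem hin, hfd, hYfd, PS_fd hB hρ hW.gs, TT_fd hB hρ hW.gs]
      obtain ⟨x1, x2⟩ := chi_b hB hw hc0 (x := x) y
      obtain ⟨t1, t2, t3, t4⟩ := stp_b hB ((ww κ ρ g x y + κ * r / 8) / (κ * r / 16))
      obtain ⟨p1, p2, p3, p4⟩ := stp_b hB ((uu κ ρ g x y - κ * r / 64) / (κ * r / 64))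
      have u1 := uu_lo hB hκ hρ hW hy
      have w1 := ww_lo hB hκ hρ hW hy
      have e1 : chi x c w y * pr κ ρ g x W m r y = pr κ ρ g x W m r y := by
        by_cases hp : pr κ ρ g x W m r y = 0
        · rw [hp, mul_zero]
        · have h1 := (pr_ne hB hκ hr hp).1
          have h2 := nm_le_ds hB hρ (x := x) y
          have h3 : ‖y - x‖ ≤ c := by rw [hc]; linarith
          rw [(chi_in hB hw hc0 h3).1, one_mul]
      have e2 : Y y = TT κ ρ g x r y * PS κ ρ g x r y := by rw [hY]
      have eT : TT κ ρ g x r y = stp ((ww κ ρ g x y + κ * r / 8) / (κ * r / 16)) := rfl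
      have eP : PS κ ρ g x r y = stp ((uu κ ρ g x y - κ * r / 64) / (κ * r / 64)) := rfl
      have epr : pr κ ρ g x W m r y = TT κ ρ g x r y * (stp' ((uu κ ρ g x y - κ * r / 64) / (κ * r / 64)) / (κ * r / 64) *
        (fderiv ℝ (uu κ ρ g x) y (W y) + m y)) := rfl
      have hYW : -(2 / w * S.indicator f y) ≤ Y y * fderiv ℝ (chi x c w) y (W y) := by
        by_cases hyS : y ∈ S
        · rw [Set.indicator_of_mem hyS]
          have h1 := chi_fd_le hB hw hc0 (x := x) y (W y)
          have h2 := hW.up y hy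
          have h3 : |Y y * fderiv ℝ (chi x c w) y (W y)| ≤ 2 / w * f y := by
            rw [abs_mul]
            have h4 : |Y y| ≤ 1 := by
              rw [e2, abs_of_nonneg (by rw [eT, eP]; positivity)]
              rw [eT, eP]
              exact mul_le_one₀ t2 p1 p2
            calc |Y y| * |fderiv ℝ (chi x c w) y (W y)| ≤ 1 * (2 / w * len (W y)) :=
                  mul_le_mul h4 h1 (abs_nonneg _) zero_le_one
              _ ≤ 2 / w * f y := by rw [one_mul]; gcongr
          exact (abs_le.1 h3).1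
        · rw [Set.indicator_of_notMem hyS, mul_zero, neg_zero]
          rw [hS, mem_inter_iff, not_and_or] at hyS
          rcases hyS with h1 | h1
          · have h2 : w < |‖y - x‖ - s| := not_le.1 h1
            rcases lt_abs.1 h2 with h3 | h3
            · rw [(chi_out hB hw hc0 (x := x) (y := y) (by rw [hsw]; linarith)).2, mul_zero]
            · rw [(chi_in hB hw hc0 (x := x) (y := y) (by rw [hc]; linarith)).2, mul_zero]
          · have h2 : uu κ ρ g x y ≤ 0 := not_lt.1 h1
            have h3 : PS κ ρ g x r y = 0 := by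
              rw [eP]
              apply stp_0 hB
              exact div_nonpos_of_nonpos_of_nonneg (by linarith) (by positivity)
            rw [e2, h3, mul_zero, zero_mul]
      obtain ⟨a, ha⟩ : ∃ a, a = stp' ((uu κ ρ g x y - κ * r / 64) / (κ * r / 64)) / (κ * r / 64) := ⟨_, rfl⟩
      obtain ⟨b, hb⟩ : ∃ b, b = stp' ((ww κ ρ g x y + κ * r / 8) / (κ * r / 16)) / (κ * r / 16) := ⟨_, rfl⟩
      rw [← ha] at epr ⊢
      rw [← hb]
      have a0 : 0 ≤ a := by rw [ha]; positivity
      have b0 : 0 ≤ b := by rw [hb]; positivity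
      have a1 : a ≤ 128 / (κ * r) := by
        rw [ha, div_le_div_iff₀ (by positivity) hκr]
        nlinarith
      have b1 : b ≤ 32 / (κ * r) := by
        rw [hb, div_le_div_iff₀ (by positivity) hκr]
        nlinarith
      obtain ⟨X, hX⟩ : ∃ X, X = chi x c w y := ⟨_, rfl⟩
      obtain ⟨Θ, hΘ⟩ : ∃ Θ, Θ = TT κ ρ g x r y := ⟨_, rfl⟩
      obtain ⟨Ψ, hΨ⟩ : ∃ Ψ, Ψ = PS κ ρ g x r y := ⟨_, rfl⟩
      rw [← eT, ← hΘ] at t1 t2
      rw [← eP, ← hΨ] at p1 p2
      rw [← hX] at x1 x2 e1
      rw [← hΘ] at epr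
      rw [← hΘ, ← hΨ, ← hX]
      obtain ⟨du, hdu⟩ : ∃ du, du = fderiv ℝ (uu κ ρ g x) y (W y) := ⟨_, rfl⟩
      obtain ⟨dw, hdw⟩ : ∃ dw, dw = fderiv ℝ (ww κ ρ g x) y (W y) := ⟨_, rfl⟩
      rw [← hdu] at epr u1 ⊢
      rw [← hdw] at w1 ⊢
      have h1 : X * (Ψ * (b * dw)) ≥ -(32 / (κ * r) * m y) := by
        have h2 : -m y ≤ dw := by
          have : 0 ≤ κ / 4 * f y := by positivity
          linarith
        have h3 : X * Ψ * b ≤ 32 / (κ * r) := by
          have : X * Ψ ≤ 1 := mul_le_one₀ x2 p1 p2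
          calc X * Ψ * b ≤ 1 * b := by gcongr
            _ ≤ _ := by rw [one_mul]; exact b1
        have h4 : 0 ≤ X * Ψ * b := by positivity
        have h5 := mul_le_mul_of_nonneg_left h2 h4
        have h6 := mul_le_mul_of_nonneg_right h3 hm0
        have h7 : X * (Ψ * (b * dw)) = X * Ψ * b * dw := by ring
        rw [h7]
        linarith
      have h2 : X * (Θ * (a * du)) ≥ pr κ ρ g x W m r y - 128 / (κ * r) * m y := by
        have h3 : X * (Θ * (a * du)) = X * pr κ ρ g x W m r y - X * Θ * a * m y := by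
          rw [epr]; ring
        rw [h3, e1]
        have h4 : X * Θ * a ≤ 128 / (κ * r) := by
          have : X * Θ ≤ 1 := mul_le_one₀ x2 t1 t2
          calc X * Θ * a ≤ 1 * a := by gcongr
            _ ≤ _ := by rw [one_mul]; exact a1
        have h6 := mul_le_mul_of_nonneg_right h4 hm0
        linarith
      have h3 : 128 / (κ * r) * m y + 32 / (κ * r) * m y ≤ 256 / (κ * r) * m y := by
        have h4 : 0 ≤ m y / (κ * r) := by positivity
        have e5 : ∀ q : ℝ, q / (κ * r) * m y = q * (m y / (κ * r)) := fun q => by ring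
        rw [e5, e5, e5]
        linarith
      have h4 : X * (Θ * (a * du) + Ψ * (b * dw)) = X * (Θ * (a * du)) + X * (Ψ * (b * dw)) := by ring
      rw [h4]
      linarith
    · rw [Set.indicator_of_notMem hin, mul_zero, add_zero]
      rw [mem_closedBall, dist_eq_norm, not_le] at hin
      have h1 := chi_out hB hw hc0 (x := x) (y := y) (by rw [hsw]; exact hin.le)
      rw [hfd, h1.1, h1.2]
      have h2 : pr κ ρ g x W m r y = 0 := by
        by_contra hp
        have h3 := (pr_ne hB hκ hr hp).1
        have h4 := nm_le_ds hB hρ (x := x) y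
        linarith
      rw [h2]
      have : 0 ≤ 2 / w * S.indicator f y := by positivity
      linarith
  have hK : IsCompact (closedBall x R) := isCompact_closedBall x R
  have i0 : IntegrableOn (pr κ ρ g x W m r) (closedBall x R) := (pr_cont hB hρ hW r).continuousOn.integrableOn_compact hK
  have i1 : IntegrableOn (fun y => fderiv ℝ F y (W y)) (closedBall x R) :=
    ((hFc.continuous_fderiv one_ne_zero).clm_apply hW.wd.cont).continuousOn.integrableOn_compact hK
  have i2 : IntegrableOn (fun y => 2 / w * S.indicator f y) (closedBall x R) :=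
    ((hW.fc.continuousOn.integrableOn_compact hK).indicator hSm).const_mul _
  have i3 : IntegrableOn (fun y => 256 / (κ * r) * (closedBall x (s + w)).indicator m y) (closedBall x R) :=
    ((hW.mc.continuousOn.integrableOn_compact hK).indicator measurableSet_closedBall).const_mul _
  have i23 : IntegrableOn (fun y => 2 / w * S.indicator f y + 256 / (κ * r) * (closedBall x (s + w)).indicator m y)
      (closedBall x R) := i2.add i3
  have i123 : IntegrableOn (fun y => fderiv ℝ F y (W y) + (2 / w * S.indicator f y +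
      256 / (κ * r) * (closedBall x (s + w)).indicator m y)) (closedBall x R) := i1.add i23
  have hmono := setIntegral_mono_on i0 i123 measurableSet_closedBall hpt
  rw [integral_add i1 i23, integral_add i2 i3, hdiv, integral_const_mul, integral_const_mul, setIntegral_indicator hSm,
    setIntegral_indicator measurableSet_closedBall, inter_eq_right.2 hSB,
    inter_eq_right.2 (closedBall_subset_closedBall hsR), zero_add, hS] at hmono
  exact hmono

end Pool.Agent.Q16.VL
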